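import Pool.Agent.L7h71.UN.Stm

/-!
# Project UN (owner helper71): `S_CELL1`
-/

set_option autoImplicit false

namespace Pool.Agent.L7h89.UN

open Set Filter Function Pool.Agent.L7h71.UN

theorem s_CELL1 : S_CELL1 := by
  classical
  intro r k K V N hN
  obtain ⟨d, m, sz, e, he⟩ := hN
  -- the broken cells
  let B : Fin m → Set ℕ := fun i => {n | ∃ j a, e (Sum.inr a) = Sum.inr ⟨i, (n, j)⟩}
  have hB : ∀ i, (B i).Finite := by
    intro i
    refine (Set.finite_range fun a : Fin k => match e (Sum.inr a) with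
      | Sum.inl _ => 0
      | Sum.inr w => w.2.1).subset ?_
    rintro n ⟨j, a, ha⟩
    refine ⟨a, ?_⟩
    simp only [ha]
  have hinf : ∀ i, Infinite {n // n ∉ B i} := fun i => (hB i).infinite_compl.to_subtype
  have hρ : ∀ i, Nonempty (ℕ ≃ {n // n ∉ B i}) := fun i => by
    have := hinf i
    exact nonempty_equiv_of_countable
  obtain ⟨ρ⟩ : Nonempty (∀ i, ℕ ≃ {n // n ∉ B i}) := ⟨fun i => (hρ i).some⟩
  -- the finite part
  let P : Set (Dom d m sz) := {w | (∃ v, e (Sum.inl v) = w) ∧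
    ∀ i n j, w = Sum.inr ⟨i, (n, j)⟩ → n ∈ B i}
  have hP : P.Finite := by
    refine ((Set.finite_range (Sum.inl : Fin d → Dom d m sz)).union (Set.finite_iUnion fun i =>
      ((hB i).prod (Set.finite_univ : (univ : Set (Fin (sz i))).Finite)).image
        fun p : ℕ × Fin (sz i) => (Sum.inr ⟨i, p⟩ : Dom d m sz))).subset ?_
    rintro w ⟨-, h2⟩
    rcases w with a | ⟨i, n, j⟩
    · exact Or.inl ⟨a, rfl⟩
    · refine Or.inr (Set.mem_iUnion.2 ⟨i, (n, j), ⟨h2 i n j rfl, mem_univ j⟩, rfl⟩)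
  have := hP.fintype
  let ε : P ≃ Fin (Fintype.card P) := Fintype.equivFin P
  let g : Dom (Fintype.card P) m sz → Dom d m sz
    | Sum.inl a => (ε.symm a : Dom d m sz)
    | Sum.inr ⟨i, (n, j)⟩ => Sum.inr ⟨i, ((ρ i n : ℕ), j)⟩
  have hg : ∀ u, ∃ v, e (Sum.inl v) = g u := by
    rintro (a | ⟨i, n, j⟩)
    · exact (ε.symm a).2.1
    · rcases h1 : e.symm (Sum.inr ⟨i, ((ρ i n : ℕ), j)⟩) with v | a
      · exact ⟨v, by rw [← h1, Equiv.apply_symm_apply]⟩
      · refine absurd ?_ (ρ i n).2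
        exact ⟨j, a, by rw [← h1, Equiv.apply_symm_apply]⟩
  have hgi : Injective g := by
    rintro (a | ⟨i, n, j⟩) (a' | ⟨i', n', j'⟩) h
    · congr 1
      exact ε.symm.injective (Subtype.ext h)
    · have h1 : ((ε.symm a : P) : Dom d m sz) = Sum.inr ⟨i', ((ρ i' n' : ℕ), j')⟩ := h
      exact absurd ((ε.symm a).2.2 i' _ j' h1) (ρ i' n').2
    · have h1 : ((ε.symm a' : P) : Dom d m sz) = Sum.inr ⟨i, ((ρ i n : ℕ), j)⟩ := h.symm
      exact absurd ((ε.symm a').2.2 i _ j h1) (ρ i n).2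
    · have h1 : (⟨i, ((ρ i n : ℕ), j)⟩ : Σ i : Fin m, ℕ × Fin (sz i)) =
          ⟨i', ((ρ i' n' : ℕ), j')⟩ := Sum.inr_injective h
      obtain ⟨rfl, h2⟩ := Sigma.mk.inj h1
      have h3 := Prod.mk.inj (eq_of_heq h2)
      obtain ⟨h4, rfl⟩ := h3
      have h5 : n = n' := (ρ i).injective (Subtype.ext h4)
      rw [h5]
  choose h hh using hg
  have hbij : Bijective h := by
    constructor
    · intro u u' huu
      apply hgi
      rw [← hh, ← hh, huu]
    · intro v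
      have key : ∃ u, g u = e (Sum.inl v) := by
        by_cases hv : e (Sum.inl v) ∈ P
        · refine ⟨Sum.inl (ε ⟨_, hv⟩), ?_⟩
          show ((ε.symm (ε ⟨_, hv⟩) : P) : Dom d m sz) = _
          rw [Equiv.symm_apply_apply]
        · have h1 : ¬ ∀ i n j, e (Sum.inl v) = Sum.inr ⟨i, (n, j)⟩ → n ∈ B i :=
            fun h2 => hv ⟨⟨v, rfl⟩, h2⟩
          push Not at h1
          obtain ⟨i, n, j, h2, h3⟩ := h1
          refine ⟨Sum.inr ⟨i, ((ρ i).symm ⟨n, h3⟩, j)⟩, ?_⟩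
          show (Sum.inr ⟨i, ((ρ i ((ρ i).symm ⟨n, h3⟩) : ℕ), j)⟩ : Dom d m sz) = _
          rw [Equiv.apply_symm_apply, h2]
      obtain ⟨u, hu⟩ := key
      refine ⟨u, ?_⟩
      apply Sum.inl_injective (β := Fin k)
      apply e.injective
      rw [hh, hu]
  refine ⟨Fintype.card P, m, sz, (Equiv.ofBijective h hbij).symm, fun σ x => ?_⟩
  -- the extended permutations
  let σ' : Fin m → Equiv.Perm ℕ := fun i => (σ i).extendDomain (ρ i)
  have h1 : ∀ i n, σ' i (ρ i n) = (ρ i (σ i n) : ℕ) := fun i n =>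
    Equiv.Perm.extendDomain_apply_image (σ i) (ρ i) n
  have h2 : ∀ i n, n ∈ B i → σ' i n = n := fun i n hn =>
    Equiv.Perm.extendDomain_apply_not_subtype (σ i) (ρ i) (fun h' => h' hn)
  have h3 : ∀ u, act σ' (g u) = g (act σ u) := by
    rintro (a | ⟨i, n, j⟩)
    · show act σ' ((ε.symm a : P) : Dom d m sz) = ((ε.symm a : P) : Dom d m sz)
      rcases hw : ((ε.symm a : P) : Dom d m sz) with b | ⟨i, n, j⟩
      · rfl
      · have h4 := (ε.symm a).2.2 i n j hw
        show (Sum.inr ⟨i, (σ' i n, j)⟩ : Dom d m sz) = _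
        rw [h2 i n h4]
    · show (Sum.inr ⟨i, (σ' i (ρ i n), j)⟩ : Dom d m sz) = Sum.inr ⟨i, ((ρ i (σ i n) : ℕ), j)⟩
      rw [h1]
  have h4 : ∀ u, (Sum.inl (h u) : V ⊕ Fin k) = e.symm (g u) := fun u => by
    rw [← hh, Equiv.symm_apply_apply]
  have h5 : ∀ v : V, g ((Equiv.ofBijective h hbij).symm v) = e (Sum.inl v) := fun v => by
    rw [← hh]
    congr 2
    exact (Equiv.ofBijective h hbij).apply_symm_apply v
  have h6 := he σ' fun i => Sum.inl (x i)
  refine Eq.trans ?_ h6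
  show N (fun i => Sum.inl (h (act σ ((Equiv.ofBijective h hbij).symm (x i))))) = _
  congr 1
  funext i
  rw [h4, ← h3, h5]

end Pool.Agent.L7h89.UN
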