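import Pool.Agent.L7h71.UN.Stm

/-!
# Project UN (owner helper71): `S_STB1`
-/

set_option autoImplicit false

namespace Pool.Agent.L7h89.UN

open Set Filter Function Pool.Agent.L7h71.UN

/-- a finite set of at most `p` numbers can be moved below `p` -/
lemma exists_perm (A : Finset ℕ) (p : ℕ) (hA : A.card ≤ p) : ∃ π : Equiv.Perm ℕ,
    (∀ l ∈ A, π l < p) ∧ ∀ l, p ≤ l → l ∉ A → π l = l := by
  classical
  have h1 : (A.filter fun l => p ≤ l).card ≤ (Finset.range p \ A).card := by
    have e1 := Finset.card_filter_add_card_filter_not (s := A) (fun l => p ≤ l)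
    have e2 : (Finset.range p \ A).card + (Finset.range p ∩ A).card = p := by
      rw [Finset.card_sdiff_add_card_inter, Finset.card_range]
    have e3 : Finset.range p ∩ A = A.filter fun l => ¬ p ≤ l := by
      ext l
      simp only [Finset.mem_inter, Finset.mem_range, Finset.mem_filter, not_le]
      exact and_comm
    rw [e3] at e2
    omega
  obtain ⟨B', hB', hc⟩ := Finset.exists_subset_card_eq h1
  let b : Fin (A.filter fun l => p ≤ l).card → ℕ := fun i =>
    ((A.filter fun l => p ≤ l).equivFin.symm i : ℕ)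
  let b' : Fin (A.filter fun l => p ≤ l).card → ℕ := fun i =>
    ((Finset.equivFinOfCardEq hc).symm i : ℕ)
  have hbA : ∀ i, b i ∈ A.filter fun l => p ≤ l := fun i =>
    ((A.filter fun l => p ≤ l).equivFin.symm i).2
  have hbB : ∀ i, b' i ∈ Finset.range p \ A := fun i =>
    hB' ((Finset.equivFinOfCardEq hc).symm i).2
  have hb : Injective b := fun i j h => (A.filter fun l => p ≤ l).equivFin.symm.injective
    (Subtype.ext h)
  have hb' : Injective b' := fun i j h => (Finset.equivFinOfCardEq hc).symm.injective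
    (Subtype.ext h)
  have hne : ∀ i j, b i ≠ b' j := by
    intro i j h
    have h2 := (Finset.mem_filter.1 (hbA i)).2
    have h3 := Finset.mem_range.1 (Finset.mem_sdiff.1 (hbB j)).1
    omega
  obtain ⟨π, g1, g2, g3⟩ := exists_swap hb hb' hne
  refine ⟨π, fun l hl => ?_, fun l hl hlA => ?_⟩
  · by_cases hpl : p ≤ l
    · obtain ⟨i, hi⟩ : ∃ i, b i = l := by
        refine ⟨(A.filter fun l => p ≤ l).equivFin ⟨l, Finset.mem_filter.2 ⟨hl, hpl⟩⟩, ?_⟩
        simp [b]
      rw [← hi, g1]
      exact Finset.mem_range.1 (Finset.mem_sdiff.1 (hbB i)).1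
    · rw [g3 l]
      · omega
      · intro i h
        exact hpl (h ▸ (Finset.mem_filter.1 (hbA i)).2)
      · intro i h
        exact (Finset.mem_sdiff.1 (hbB i)).2 (h ▸ hl)
  · refine g3 l (fun i h => ?_) fun i h => ?_
    · exact hlA (h ▸ (Finset.mem_filter.1 (hbA i)).1)
    · have := Finset.mem_range.1 (Finset.mem_sdiff.1 (hbB i)).1
      omega

section

variable {r : ℕ} {K V ι κ : Type} {W : St r K (V ⊕ ℕ × (ι ⊕ ℕ × κ))}
    {τ : Fin r → V ⊕ (ι ⊕ κ)} {α γ : K}

/-- the value at the tuples `x`, `y` -/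
def T (W : St r K (V ⊕ ℕ × (ι ⊕ ℕ × κ))) (τ : Fin r → V ⊕ (ι ⊕ κ))
    (x : ι → ℕ × (ι ⊕ ℕ × κ)) (y : κ → ℕ × (ι ⊕ ℕ × κ)) : K :=
  W (Sum.map id (Sum.elim x y) ∘ τ)

lemma T_map (g : ℕ × (ι ⊕ ℕ × κ) → ℕ × (ι ⊕ ℕ × κ)) (x : ι → ℕ × (ι ⊕ ℕ × κ))
    (y : κ → ℕ × (ι ⊕ ℕ × κ)) :
    W (Sum.map id g ∘ (Sum.map id (Sum.elim x y) ∘ τ)) = T W τ (g ∘ x) (g ∘ y) := by
  unfold T
  congr 1
  funext i
  simp only [comp_apply]
  rcases τ i with v | j | k <;> rfl

lemma T_inv (h : StarConf W τ α γ) (σ : Equiv.Perm ℕ) (π : ℕ → Equiv.Perm ℕ)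
    (x : ι → ℕ × (ι ⊕ ℕ × κ)) (y : κ → ℕ × (ι ⊕ ℕ × κ)) :
    T W τ (sact σ π ∘ x) (sact σ π ∘ y) = T W τ x y := by
  rw [← T_map, h.inv]
  rfl

open Classical in
/-- the case without common stars -/
lemma no_common [Finite ι] [Finite κ] (h : StarConf W τ α γ)
    (x : ι → ℕ × (ι ⊕ ℕ × κ)) (y : κ → ℕ × (ι ⊕ ℕ × κ)) (hx : LikeX W τ x) (hy : LikeY W τ y)
    (hxy : ∀ i k, (x i).1 ≠ (y k).1) : T W τ x y = γ := by
  cases nonempty_fintype ι
  cases nonempty_fintype κ
  have hι : Fintype.card ι = Nat.card ι := Fintype.card_eq_nat_card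
  -- the stars of `x`
  let Sx : Finset ℕ := Finset.univ.image fun i => (x i).1
  obtain ⟨σ, s1, s2⟩ := exists_perm Sx (Nat.card ι) (by
    rw [← hι]
    exact Finset.card_image_le)
  -- the leaves of `x`
  let Lx : ℕ → Finset ℕ := fun s => Finset.univ.image fun i =>
    match (x i).2 with
    | Sum.inl _ => 0
    | Sum.inr (l, _) => l
  have hL : ∀ s, ∃ π : Equiv.Perm ℕ, (∀ l ∈ Lx s, π l < Nat.card ι) ∧
      ∀ l, Nat.card ι ≤ l → l ∉ Lx s → π l = l := fun s => exists_perm _ _ (by
    rw [← hι]
    exact Finset.card_image_le)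
  choose π₀ p1 p2 using hL
  let π : ℕ → Equiv.Perm ℕ := fun s => if s ∈ Sx then π₀ s else 1
  have hnot : ∀ s, Nat.card ι ≤ s → s ∉ Sx → ∀ w, sact (ι := ι) (κ := κ) σ π (s, w) = (s, w) := by
    intro s hs hsx w
    unfold sact
    have e : π s = 1 := if_neg hsx
    simp only [e, s2 s hs hsx]
    congr 1
    rcases w with i | ⟨l, k⟩ <;> rfl
  have hSx : ∀ i, (x i).1 ∈ Sx := fun i => Finset.mem_image_of_mem _ (Finset.mem_univ i)
  -- the points of `x'` are named
  have hnam : ∀ i, (Sum.inr (sact σ π (x i)) : V ⊕ ℕ × (ι ⊕ ℕ × κ)) ∈ Nam τ := by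
    intro i
    have h1 := s1 _ (hSx i)
    rcases hxi : (x i).2 with j | ⟨l, k⟩
    · right; left
      refine ⟨σ (x i).1, j, by omega, ?_⟩
      unfold sact
      rw [hxi]
      rfl
    · right; right
      have h2 : l ∈ Lx (x i).1 := by
        refine Finset.mem_image.2 ⟨i, Finset.mem_univ i, ?_⟩
        rw [hxi]
      have h3 := p1 (x i).1 l h2
      refine ⟨σ (x i).1, π₀ (x i).1 l, k, by omega, by omega, ?_⟩
      unfold sact
      rw [hxi]
      have e : π (x i).1 = π₀ (x i).1 := if_pos (hSx i)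
      rw [e]
      rfl
  have hy' : sact σ π ∘ y = y := by
    funext k
    refine hnot (y k).1 (by have := hy.far k; omega) ?_ (y k).2
    intro h'
    obtain ⟨i, -, hi⟩ := Finset.mem_image.1 h'
    exact hxy i k hi
  have hcard : Nat.card ι ∉ Sx := by
    intro h'
    obtain ⟨i, -, hi⟩ := Finset.mem_image.1 h'
    have := hx.far i
    omega
  let Y : ℕ → κ → ℕ × (ι ⊕ ℕ × κ) := fun t k => (t, Sum.inr (0, k))
  let X : ℕ → ι → ℕ × (ι ⊕ ℕ × κ) := fun t i => (t, Sum.inl i)
  have hY0 : sact σ π ∘ Y (Nat.card ι) = Y (Nat.card ι) := by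
    funext k
    exact hnot _ le_rfl hcard _
  -- step 1
  have st1 : T W τ x y = T W τ (sact σ π ∘ x) y := by
    rw [← T_inv h σ π x y, hy']
  -- step 2
  have st2 : T W τ (sact σ π ∘ x) y = T W τ (sact σ π ∘ x) (Y (Nat.card ι + 1)) := by
    let ρ : Fin r → (V ⊕ ℕ × (ι ⊕ ℕ × κ)) ⊕ κ := fun i =>
      match τ i with
      | Sum.inl v => Sum.inl (Sum.inl v)
      | Sum.inr (Sum.inl j) => Sum.inl (Sum.inr (sact σ π (x j)))
      | Sum.inr (Sum.inr k) => Sum.inr k
    have hρ : ∀ y' : κ → ℕ × (ι ⊕ ℕ × κ), T W τ (sact σ π ∘ x) y' =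
        W (sub ρ fun k => Sum.inr (y' k)) := by
      intro y'
      unfold T
      congr 1
      funext i
      simp only [comp_apply, sub, ρ]
      rcases τ i with v | j | k <;> rfl
    rw [hρ, hρ]
    refine hy.typ ρ (Nat.card ι + 1) le_rfl fun i u hu => ?_
    simp only [ρ] at hu
    rcases hτ : τ i with v | j | k
    · rw [hτ] at hu
      left
      exact ⟨i, v, hτ, (Sum.inl_injective hu).symm⟩
    · rw [hτ] at hu
      rw [← Sum.inl_injective hu]
      exact hnam j
    · rw [hτ] at hu
      simp at hu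
  -- step 3
  have st3 : T W τ (sact σ π ∘ x) (Y (Nat.card ι + 1)) = T W τ (sact σ π ∘ x) (Y (Nat.card ι)) := by
    have h1 := T_inv h (Equiv.swap (Nat.card ι + 1) (Nat.card ι)) (fun _ => 1)
      (sact σ π ∘ x) (Y (Nat.card ι + 1))
    rw [← h1]
    congr 1
    · funext i
      show sact _ _ (sact σ π (x i)) = sact σ π (x i)
      have h2 : (sact σ π (x i)).1 < Nat.card ι := s1 _ (hSx i)
      set w := sact σ π (x i) with hw
      unfold sact
      rw [Equiv.swap_apply_of_ne_of_ne (by omega) (by omega)]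
      ext1
      · rfl
      · rcases w.2 with i | ⟨l, k⟩ <;> rfl
    · funext k
      show sact _ _ (Nat.card ι + 1, Sum.inr (0, k)) = _
      unfold sact
      rw [Equiv.swap_apply_left]
      rfl
  -- step 4
  have st4 : T W τ (sact σ π ∘ x) (Y (Nat.card ι)) = T W τ x (Y (Nat.card ι)) := by
    rw [← T_inv h σ π x (Y (Nat.card ι)), hY0]
  -- step 5
  have st5 : T W τ x (Y (Nat.card ι)) = T W τ (X (Nat.card ι + 1)) (Y (Nat.card ι)) := by
    let ρ : Fin r → (V ⊕ ℕ × (ι ⊕ ℕ × κ)) ⊕ ι := fun i =>
      match τ i with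
      | Sum.inl v => Sum.inl (Sum.inl v)
      | Sum.inr (Sum.inl j) => Sum.inr j
      | Sum.inr (Sum.inr k) => Sum.inl (Sum.inr (Y (Nat.card ι) k))
    have hρ : ∀ x' : ι → ℕ × (ι ⊕ ℕ × κ), T W τ x' (Y (Nat.card ι)) =
        W (sub ρ fun k => Sum.inr (x' k)) := by
      intro x'
      unfold T
      congr 1
      funext i
      simp only [comp_apply, sub, ρ]
      rcases τ i with v | j | k <;> rfl
    rw [hρ, hρ]
    refine hx.typ ρ (Nat.card ι + 1) le_rfl fun i u hu => ?_
    simp only [ρ] at hu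
    rcases hτ : τ i with v | j | k
    · rw [hτ] at hu
      left
      exact ⟨i, v, hτ, (Sum.inl_injective hu).symm⟩
    · rw [hτ] at hu
      simp at hu
    · rw [hτ] at hu
      rw [← Sum.inl_injective hu]
      right; right
      have hk : 0 < Nat.card κ := by
        have : Nonempty κ := ⟨k⟩
        exact Nat.card_pos
      exact ⟨Nat.card ι, 0, k, by omega, by omega, rfl⟩
  rw [st1, st2, st3, st4, st5]
  exact h.off _ _ 0 (by omega)

lemma sw_sw (s s' : ℕ) (w : ℕ × (ι ⊕ ℕ × κ)) :
    sact (Equiv.swap s s') (fun _ => 1) (sact (Equiv.swap s s') (fun _ => 1) w) = w := by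
  obtain ⟨t, w⟩ := w
  unfold sact
  ext1
  · simp
  · rcases w with i | ⟨l, k⟩ <;> rfl

lemma sw_ne {s s' t : ℕ} (h : t ≠ s) (h' : t ≠ s') (w : ι ⊕ ℕ × κ) :
    sact (Equiv.swap s s') (fun _ => 1) (t, w) = (t, w) := by
  unfold sact
  ext1
  · exact Equiv.swap_apply_of_ne_of_ne h h'
  · rcases w with i | ⟨l, k⟩ <;> rfl

lemma sw_eq (s s' : ℕ) (w : ι ⊕ ℕ × κ) :
    sact (Equiv.swap s s') (fun _ => 1) (s, w) = (s', w) := by
  unfold sact
  ext1
  · exact Equiv.swap_apply_left s s'
  · rcases w with i | ⟨l, k⟩ <;> rfl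

end

open Classical in
theorem s_STB1 : S_STB1 := by
  intro r K V ι κ _ _ W τ α γ h x y hx hy hleaf hone
  cases nonempty_fintype ι
  cases nonempty_fintype κ
  have hι : Fintype.card ι = Nat.card ι := Fintype.card_eq_nat_card
  have hκ : Fintype.card κ = Nat.card κ := Fintype.card_eq_nat_card
  suffices H : ∀ (n : ℕ) (y : κ → ℕ × (ι ⊕ ℕ × κ)), LikeY W τ y →
      (∀ i k, (x i).1 = (y k).1 → ∃ l j, (y k).2 = Sum.inr (l, j) ∧
        ∀ i' j', x i' ≠ ((y k).1, Sum.inr (l, j'))) →
      (¬ ∃ s, (∀ i, (x i).1 = s) ∧ ∀ k, (y k).1 = s) →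
      ((Finset.univ.image fun i => (x i).1) ∩ (Finset.univ.image fun k => (y k).1)).card = n →
      T W τ x y = γ from H _ y hy hleaf hone rfl
  intro n
  induction n with
  | zero =>
    intro y hy _ _ hc
    rw [Finset.card_eq_zero] at hc
    refine no_common h x y hx hy fun i k hik => ?_
    have : (x i).1 ∈ (Finset.univ.image fun i => (x i).1) ∩ (Finset.univ.image fun k => (y k).1) :=
      Finset.mem_inter.2 ⟨Finset.mem_image_of_mem _ (Finset.mem_univ i), by
        rw [hik]
        exact Finset.mem_image_of_mem _ (Finset.mem_univ k)⟩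
    rw [hc] at this
    simp at this
  | succ n ih =>
    intro y hy hleaf hone hc
    obtain ⟨s, hs⟩ : ((Finset.univ.image fun i => (x i).1) ∩
        (Finset.univ.image fun k => (y k).1)).Nonempty := by
      rw [← Finset.card_pos]
      omega
    obtain ⟨⟨i₀, -, hi₀⟩, ⟨k₀, -, hk₀⟩⟩ :
        (∃ i ∈ Finset.univ, (x i).1 = s) ∧ ∃ k ∈ Finset.univ, (y k).1 = s :=
      ⟨Finset.mem_image.1 (Finset.mem_inter.1 hs).1, Finset.mem_image.1 (Finset.mem_inter.1 hs).2⟩
    have hsp : Nat.card ι + 1 ≤ s := hi₀ ▸ hx.far i₀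
    obtain ⟨s', hs'⟩ := Infinite.exists_notMem_finset ((Finset.univ.image fun i => (x i).1) ∪
      (Finset.univ.image fun k => (y k).1) ∪ Finset.range (Nat.card ι + 1))
    simp only [Finset.mem_union, Finset.mem_image, Finset.mem_univ, true_and, Finset.mem_range,
      not_or, not_exists, not_lt] at hs'
    obtain ⟨⟨hs'x, hs'y⟩, hs'p⟩ := hs'
    have hss : s ≠ s' := fun e => hs'x i₀ (hi₀.trans e)
    set g : ℕ × (ι ⊕ ℕ × κ) → ℕ × (ι ⊕ ℕ × κ) := sact (Equiv.swap s s') (fun _ => 1) with hg
    have gne : ∀ w : ℕ × (ι ⊕ ℕ × κ), w.1 ≠ s → w.1 ≠ s' → g w = w := fun w h1 h2 =>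
      sw_ne h1 h2 w.2
    have geq : ∀ w : ℕ × (ι ⊕ ℕ × κ), w.1 = s → g w = (s', w.2) := by
      rintro ⟨t, w⟩ rfl
      exact sw_eq _ _ w
    -- moving the leaves
    let L : Set ℕ := {l | ∃ k j, y k = (s, Sum.inr (l, j))}
    have hmx : smv s s' L ∘ x = x := by
      funext i
      show smv s s' L (x i) = x i
      rcases hxi : x i with ⟨t, w⟩
      rcases w with j | ⟨l, j⟩
      · rfl
      · simp only [smv]
        rw [if_neg]
        rintro ⟨rfl, k, j', hk⟩
        have h1 : (x i).1 = (y k).1 := by rw [hxi, hk]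
        obtain ⟨l2, j2, h2, h3⟩ := hleaf i k h1
        rw [hk] at h2
        have h4 : l = l2 := by
          have := Sum.inr_injective h2
          exact (Prod.ext_iff.1 this).1
        subst h4
        exact h3 i j (by rw [hxi, hk])
    have hmy : smv s s' L ∘ y = g ∘ y := by
      funext k
      show smv s s' L (y k) = g (y k)
      by_cases hk : (y k).1 = s
      · obtain ⟨l, j, h2, -⟩ := hleaf i₀ k (hi₀.trans hk.symm)
        have h3 : y k = (s, Sum.inr (l, j)) := Prod.ext hk h2
        rw [geq _ hk, h3]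
        simp only [smv]
        rw [if_pos (And.intro (by trivial) ⟨k, j, h3⟩)]
      · rw [gne _ hk (hs'y k)]
        rcases hyk : y k with ⟨t, w⟩
        rw [hyk] at hk
        rcases w with j | ⟨l, j⟩
        · rfl
        · simp only [smv]
          rw [if_neg]
          rintro ⟨rfl, -⟩
          exact hk rfl
    have hT : T W τ x y = T W τ x (g ∘ y) := by
      have h1 := h.dec (Sum.map id (Sum.elim x y) ∘ τ) s s' L hss ?_ ?_
      · have h2 := T_map (W := W) (τ := τ) (smv s s' L) x y
        rw [hmx, hmy] at h2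
        exact h1.symm.trans h2
      · intro i w hw
        simp only [comp_apply] at hw
        rcases hτ : τ i with v | j | k
        · rw [hτ] at hw
          simp at hw
        · rw [hτ] at hw
          have : x j = w := Sum.inr_injective hw
          rw [← this]
          exact hs'x j
        · rw [hτ] at hw
          have : y k = w := Sum.inr_injective hw
          rw [← this]
          exact hs'y k
      · have hsub : {w : ℕ × (ι ⊕ ℕ × κ) | w.1 = s ∧
            ∃ i, (Sum.map id (Sum.elim x y) ∘ τ) i = Sum.inr w} ⊆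
            (((Finset.univ.filter fun i => (x i).1 = s).image x ∪
              (Finset.univ.filter fun k => (y k).1 = s).image y : Finset _) : Set _) := by
          rintro w ⟨hw1, i, hw⟩
          simp only [comp_apply] at hw
          rcases hτ : τ i with v | j | k
          · rw [hτ] at hw
            simp at hw
          · rw [hτ] at hw
            have : x j = w := Sum.inr_injective hw
            refine Finset.mem_coe.2 (Finset.mem_union_left _ (Finset.mem_image.2
              ⟨j, Finset.mem_filter.2 ⟨Finset.mem_univ j, ?_⟩, this⟩))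
            rw [this]
            exact hw1
          · rw [hτ] at hw
            have : y k = w := Sum.inr_injective hw
            refine Finset.mem_coe.2 (Finset.mem_union_right _ (Finset.mem_image.2
              ⟨k, Finset.mem_filter.2 ⟨Finset.mem_univ k, ?_⟩, this⟩))
            rw [this]
            exact hw1
        have h1 := Set.ncard_le_ncard hsub (Finset.finite_toSet _)
        rw [Set.ncard_coe_finset] at h1
        have h2 := Finset.card_union_le ((Finset.univ.filter fun i => (x i).1 = s).image x)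
          ((Finset.univ.filter fun k => (y k).1 = s).image y)
        have h3 : ((Finset.univ.filter fun i => (x i).1 = s).image x).card ≤
          (Finset.univ.filter fun i => (x i).1 = s).card := Finset.card_image_le
        have h4 : ((Finset.univ.filter fun k => (y k).1 = s).image y).card ≤
          (Finset.univ.filter fun k => (y k).1 = s).card := Finset.card_image_le
        have h5 : (Finset.univ.filter fun i => (x i).1 = s).card ≤ Fintype.card ι :=
          Finset.card_le_univ _
        have h6 : (Finset.univ.filter fun k => (y k).1 = s).card ≤ Fintype.card κ :=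
          Finset.card_le_univ _
        have h7 : (Finset.univ.filter fun i => (x i).1 = s).card < Fintype.card ι ∨
            (Finset.univ.filter fun k => (y k).1 = s).card < Fintype.card κ := by
          by_contra hcon
          push Not at hcon
          apply hone
          refine ⟨s, fun i => ?_, fun k => ?_⟩
          · have e1 := Finset.eq_univ_of_card _ (le_antisymm h5 hcon.1)
            have e2 : i ∈ Finset.univ.filter fun i => (x i).1 = s := by
              rw [e1]
              exact Finset.mem_univ i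
            exact (Finset.mem_filter.1 e2).2
          · have e1 := Finset.eq_univ_of_card _ (le_antisymm h6 hcon.2)
            have e2 : k ∈ Finset.univ.filter fun k => (y k).1 = s := by
              rw [e1]
              exact Finset.mem_univ k
            exact (Finset.mem_filter.1 e2).2
        omega
    rw [hT]
    -- the stars of the new tuple
    have hy1 : ∀ k, (y k).1 = s → (g (y k)).1 = s' := fun k hk => by rw [geq _ hk]
    have hy2 : ∀ k, (y k).1 ≠ s → g (y k) = y k := fun k hk => gne _ hk (hs'y k)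
    refine ih (g ∘ y) ⟨?_, ?_, ?_⟩ ?_ ?_ ?_
    · intro a b hab
      apply hy.inj
      rw [← sw_sw s s' (y a), ← sw_sw s s' (y b)]
      exact congrArg g hab
    · intro k
      show _ ≤ (g (y k)).1
      by_cases hk : (y k).1 = s
      · rw [hy1 k hk]
        exact hs'p
      · rw [hy2 k hk]
        exact hy.far k
    · intro ρ t ht hρ
      rw [← hy.typ ρ t ht hρ, ← h.inv (Equiv.swap s s') (fun _ => 1) (sub ρ fun i => Sum.inr (y i))]
      congr 1
      funext i
      simp only [comp_apply, sub]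
      rcases hρi : ρ i with u | k
      · have hu := hρ i u hρi
        show u = Sum.map id _ u
        rcases hu with ⟨_, v, -, rfl⟩ | ⟨t', j, h1, rfl⟩ | ⟨t', l, k, h1, -, rfl⟩
        · rfl
        · show _ = Sum.inr (g (t', Sum.inl j))
          rw [gne _ (by show t' ≠ s; omega) (by show t' ≠ s'; omega)]
        · show _ = Sum.inr (g (t', Sum.inr (l, k)))
          rw [gne _ (by show t' ≠ s; omega) (by show t' ≠ s'; omega)]
      · rfl
    · intro i k hik
      have hik' : (x i).1 = (g (y k)).1 := hik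
      by_cases hk : (y k).1 = s
      · rw [hy1 k hk] at hik'
        exact absurd hik' (hs'x i)
      · rw [hy2 k hk] at hik'
        show ∃ l j, (g (y k)).2 = Sum.inr (l, j) ∧ ∀ i' j', x i' ≠ ((g (y k)).1, Sum.inr (l, j'))
        rw [hy2 k hk]
        exact hleaf i k hik'
    · rintro ⟨t, h1, h2⟩
      have h3 : s = t := by rw [← hi₀, h1]
      have h4 : (g (y k₀)).1 = t := h2 k₀
      rw [hy1 k₀ hk₀] at h4
      exact hss (h3.trans h4.symm)
    · have e : (Finset.univ.image fun i => (x i).1) ∩ (Finset.univ.image fun k => ((g ∘ y) k).1) =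
          ((Finset.univ.image fun i => (x i).1) ∩ (Finset.univ.image fun k => (y k).1)).erase s := by
        ext u
        simp only [Finset.mem_inter, Finset.mem_image, Finset.mem_univ, true_and, Finset.mem_erase,
          comp_apply]
        constructor
        · rintro ⟨⟨i, hi⟩, k, hk⟩
          by_cases hks : (y k).1 = s
          · rw [hy1 k hks] at hk
            exact absurd (hi.trans hk.symm) (hs'x i)
          · rw [hy2 k hks] at hk
            exact ⟨fun h' => hks (hk.trans h'), ⟨i, hi⟩, k, hk⟩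
        · rintro ⟨hus, ⟨i, hi⟩, k, hk⟩
          refine ⟨⟨i, hi⟩, k, ?_⟩
          rw [hy2 k fun h' => hus (hk.symm.trans h')]
          exact hk
      rw [e, Finset.card_erase_of_mem hs, hc]
      rfl

end Pool.Agent.L7h89.UN
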